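import Pool.Agent.H.MP_7279d0.A
import Pool.Agent.H.MP_7279d0.B

set_option autoImplicit false

open Set Filter Topology Cardinal Pool.Agent.H.MP_7279d0

namespace Pool.Agent.Results.MP_7279d0_gt.Count

lemma rk {p q : Ultrafilter ℕ} (p1 : (p : Filter ℕ) ≤ cofinite)
    (p2 : ∀ r : ℕ → Ultrafilter ℕ, ∃ V ∈ p, ∀ n, (r n : Filter ℕ) ≤ cofinite → r n ≠ p → V ∉ r n)
    {y : ℕ → W} (h : Tendsto y q (𝓝 (xl p))) (e : ∀ n, y n ≠ xl p) : ∃ φ : ℕ → ℕ, q.map φ = p := by
  rw [(bas _).tendsto_right_iff] at h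
  obtain ⟨V, v1, v2⟩ := p2 fun n => (y n).1.map fun m => m.unpair.1
  choose B b1 b2 using fun n => sep (mt Subtype.ext (e n).symm)
  have k := h {m | ∀ n ≤ m.unpair.1, B n ∈ (d m.unpair.1).1 → m ∈ B n} (mxl.2 (.of_forall fun k =>
    mem_of_superset (inter_mem (md.2 (mem_singleton k)) (((finite_Iic k).sep fun n =>
      B n ∈ (d k).1).eventually_all.2 fun n hn => hn.2)) fun m hm n a b => by
        cases hm.1; exact hm.2 n ⟨a, b⟩))
  choose! φ hφ using fun n (a : ¬ ((y n).1.map fun m => m.unpair.1 : Ultrafilter ℕ).toFilter ≤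
    cofinite) => (Ultrafilter.le_cofinite_or_eq_pure _).resolve_left a
  refine ⟨φ, Ultrafilter.eq_of_le fun C c => ?_⟩
  change ∀ᶠ n in q, C ∈ (pure (φ n) : Ultrafilter ℕ)
  filter_upwards [k, h _ (pxl.2 v1), h _ (pxl.2 c)] with n a b c
  exact (hφ n fun f => v2 n f (fun g => b2 n (mem_of_superset (inter_mem a ((Ultrafilter.coe_inj.2 g).le (inter_mem
    (p1 (Nat.cofinite_eq_atTop ▸ eventually_ge_atTop n)) (mxl.1 (b1 n))))) fun m hm =>
      hm.1 n hm.2.1 hm.2.2)) b) ▸ c

theorem result :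
    #(range fun f : C(W, W) => range fun h : C(W, W) ≃ₜ C(W, W) => h f) = 2 ^ 𝔠 := by
  refine le_antisymm (mk_range_le.trans ?_) ?_
  · choose u hu using fun A : {A : Set ℕ // A.Infinite} => two A.2 (pure 0)
    have D : DenseRange u := fun x => mem_closure_iff_nhds_basis (bas x) |>.2 fun A a =>
      ⟨_, ⟨⟨A, inf a⟩, rfl⟩, (hu _).1⟩
    refine (mk_le_of_injective (f := fun (f : C(W, W)) A => (f (u A)).1.sets) fun f g e =>
      ContinuousMap.coe_injective (D.equalizer f.2 g.2 (funext fun A => Subtype.ext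
        (Ultrafilter.coe_injective (Filter.filter_eq (congrFun e A)))))).trans ?_
    rw [mk_pi, prod_const', mk_set, mk_set, mk_nat, two_power_aleph0, ← power_mul]
    refine power_le_power_left two_ne_zero ((mul_le_mul' le_rfl (mk_subtype_le _)).trans ?_)
    simp
  obtain ⟨p, p0, p1⟩ := wp
  let R := fun x => rangeFactorization (fun f : C(W, W) =>
    range fun h : C(W, W) ≃ₜ C(W, W) => h f) (.const W (xl (p x)))
  have := mk_le_mk_mul_of_mk_preimage_le (c := 𝔠) R fun O => by
      rcases eq_empty_or_nonempty (R ⁻¹' {O}) with e | ⟨x, rfl⟩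
      · rw [e]; simp
      have : ∀ y : R ⁻¹' {R x}, ∃ φ : ℕ → ℕ, (p x).map φ = p y := by
        rintro ⟨y, hy⟩
        obtain ⟨h, e⟩ := (congrArg Subtype.val hy).le ⟨.refl _, rfl⟩
        replace e : h (.const W (xl (p x))) = .const W (xl (p y)) := e
        choose t ht using fun n => not_forall.1 (mt ContinuousMap.ext fun k :
          h (.const W (d n)) = .const W (xl (p y)) => nxl ⟨_, (p1 x).1⟩ n
            ((show d n = xl (p x) from DFunLike.congr_fun (h.injective (k.trans e.symm)) (d n)) ▸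
              md.2 rfl))
        refine rk (p1 y).1 (p1 y).2 ((bas _).tendsto_right_iff.2 fun B b => ?_) ht
        exact ((((h.continuous.comp ContinuousMap.continuous_const').tendsto' _ _ e).comp
          (txl _)).eventually (lc B _)).mono fun n a => (a _).2 b
      choose φ hφ using this
      exact (mk_le_of_injective (f := φ) fun y z e => Subtype.ext (p0 (by
        rw [← hφ, e, hφ]))).trans (by simp)
  by_contra! k
  exact (this.trans_lt (mul_lt_of_lt (aleph0_le_continuum.trans (cantor _).le) k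
    (cantor _))).ne (by simp)

end Pool.Agent.Results.MP_7279d0_gt.Count
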